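import Pool.Agent.X41.Chee.Defs

set_option autoImplicit false

namespace Pool.Agent.X41.Chee

open MeasureTheory Set

/-- the disk of radius `r` -/
def diskR (r : ℝ) : Set (ℝ × ℝ) := {p | dot p p < r ^ 2}

theorem diskR_one : diskR 1 = disk := by
  unfold diskR disk; norm_num

theorem volume_diskR {r : ℝ} (hr : 0 ≤ r) : volume (diskR r) = ENNReal.ofReal (Real.pi * r ^ 2) := by
  have h1 := Complex.volume_preserving_equiv_real_prod
  have h2 : volume (Complex.measurableEquivRealProd ⁻¹' diskR r) = volume (diskR r) :=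
    h1.measure_preimage_equiv (diskR r)
  rw [← h2]
  have h3 : Complex.measurableEquivRealProd ⁻¹' diskR r = Metric.ball (0 : ℂ) r := by
    ext z
    rw [Set.mem_preimage, Metric.mem_ball, dist_zero_right]
    show dot (z.re, z.im) (z.re, z.im) < r ^ 2 ↔ _
    have h4 : dot (z.re, z.im) (z.re, z.im) = ‖z‖ ^ 2 := by
      rw [← Complex.normSq_eq_norm_sq, Complex.normSq_apply]; rfl
    rw [h4]
    exact sq_lt_sq₀ (norm_nonneg z) hr
  rw [h3, Complex.volume_ball]
  rw [← ENNReal.ofReal_coe_nnreal, NNReal.coe_real_pi, ← ENNReal.ofReal_pow hr,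
    ← ENNReal.ofReal_mul (by positivity)]
  congr 1
  ring

theorem volume_disk : volume disk = ENNReal.ofReal Real.pi := by
  rw [← diskR_one, volume_diskR zero_le_one]; norm_num

/-- the truncated disk -/
def E0 (c : ℝ) : Set (ℝ × ℝ) := {p | dot p p < 1 ∧ |p.1| < c ∧ |p.2| < c}

theorem E0_isOpen (c : ℝ) : IsOpen (E0 c) := by
  have h1 : IsOpen {p : ℝ × ℝ | dot p p < 1} := disk_isOpen
  have h2 : IsOpen {p : ℝ × ℝ | |p.1| < c} := isOpen_lt (by fun_prop) continuous_const
  have h3 : IsOpen {p : ℝ × ℝ | |p.2| < c} := isOpen_lt (by fun_prop) continuous_const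
  exact h1.inter (h2.inter h3)

/-- one cap of the disk -/
def cap (c : ℝ) : Set (ℝ × ℝ) := {p | dot p p < 1 ∧ c ≤ p.1}

theorem cap_volume {c : ℝ} (h0 : 0 ≤ c) (h1 : c ≤ 1) :
    volume (cap c) ≤ ENNReal.ofReal (4 / 3 * (1 - c) * Real.sqrt (2 * (1 - c))) := by
  have hsub : cap c ⊆ regionBetween (fun x => -(Real.sqrt 2 * Real.sqrt (1 - x)))
      (fun x => Real.sqrt 2 * Real.sqrt (1 - x)) (Set.Icc c 1) := by
    rintro ⟨x, y⟩ ⟨h2, h3⟩
    change x * x + y * y < 1 at h2
    change c ≤ x at h3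
    have hx1 : x < 1 := by nlinarith [mul_self_nonneg y]
    refine ⟨⟨h3, hx1.le⟩, ?_⟩
    have h4 : |y| < Real.sqrt 2 * Real.sqrt (1 - x) := by
      rw [← Real.sqrt_mul (by norm_num)]
      apply Real.lt_sqrt_of_sq_lt
      rw [sq_abs]
      nlinarith
    exact ⟨(abs_lt.1 h4).1, (abs_lt.1 h4).2⟩
  refine (measure_mono hsub).trans ?_
  have hcont : Continuous (fun x : ℝ => Real.sqrt 2 * Real.sqrt (1 - x)) := by fun_prop
  have hint : IntegrableOn (fun x : ℝ => Real.sqrt 2 * Real.sqrt (1 - x)) (Set.Icc c 1) :=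
    hcont.continuousOn.integrableOn_compact isCompact_Icc
  have h5 : (volume : Measure (ℝ × ℝ)) (regionBetween
      (fun x => -(Real.sqrt 2 * Real.sqrt (1 - x)))
      (fun x => Real.sqrt 2 * Real.sqrt (1 - x)) (Set.Icc c 1)) =
      ENNReal.ofReal (∫ y in Set.Icc c 1, ((fun x => Real.sqrt 2 * Real.sqrt (1 - x)) -
        (fun x => -(Real.sqrt 2 * Real.sqrt (1 - x)))) y) := by
    apply volume_regionBetween_eq_integral hint.neg hint measurableSet_Icc
    intro x hx
    have : 0 ≤ Real.sqrt 2 * Real.sqrt (1 - x) := by positivity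
    show -(Real.sqrt 2 * Real.sqrt (1 - x)) ≤ _
    linarith
  rw [h5]
  apply ENNReal.ofReal_le_ofReal
  apply le_of_eq
  rw [integral_Icc_eq_integral_Ioc, ← intervalIntegral.integral_of_le h1]
  have h6 : ∀ x ∈ Set.uIcc c 1, HasDerivAt (fun x : ℝ => -(4 / 3 * Real.sqrt 2) * (1 - x) ^ (3 / 2 : ℝ))
      (((fun x => Real.sqrt 2 * Real.sqrt (1 - x)) -
        (fun x => -(Real.sqrt 2 * Real.sqrt (1 - x)))) x) x := by
    intro x _
    have h7 : HasDerivAt (fun x : ℝ => (1 - x) ^ (3 / 2 : ℝ))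
        ((-1) * (3 / 2) * (1 - x) ^ ((3 / 2 : ℝ) - 1)) x := by
      have h8 : HasDerivAt (fun x : ℝ => 1 - x) (-1) x := by
        simpa using (hasDerivAt_id x).const_sub 1
      exact h8.rpow_const (Or.inr (by norm_num))
    have h9 := h7.const_mul (-(4 / 3 * Real.sqrt 2))
    refine h9.congr_deriv ?_
    change _ = Real.sqrt 2 * Real.sqrt (1 - x) - -(Real.sqrt 2 * Real.sqrt (1 - x))
    rw [show (3 / 2 : ℝ) - 1 = 1 / 2 by norm_num, ← Real.sqrt_eq_rpow]
    ring
  rw [intervalIntegral.integral_eq_sub_of_hasDerivAt h6]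
  · have e1 : (1 - (1:ℝ)) ^ (3 / 2 : ℝ) = 0 := by
      rw [sub_self]; exact Real.zero_rpow (by norm_num)
    rw [e1]
    have e2 : (1 - c) ^ (3 / 2 : ℝ) = (1 - c) * Real.sqrt (1 - c) := by
      rw [show (3 / 2 : ℝ) = 1 + 1 / 2 by norm_num,
        Real.rpow_add_of_nonneg (by linarith) (by norm_num) (by norm_num), Real.rpow_one,
        ← Real.sqrt_eq_rpow]
    rw [e2, Real.sqrt_mul (by norm_num)]
    ring
  · apply Continuous.intervalIntegrable
    exact hcont.sub hcont.neg

theorem volume_swap (s : Set (ℝ × ℝ)) (hs : MeasurableSet s) :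
    volume (Prod.swap ⁻¹' s) = volume s := by
  have h : MeasurePreserving (Prod.swap : ℝ × ℝ → ℝ × ℝ) volume volume :=
    Measure.measurePreserving_swap
  exact h.measure_preimage hs.nullMeasurableSet

theorem cap_meas (c : ℝ) : MeasurableSet (cap c) := by
  have h1 : MeasurableSet {p : ℝ × ℝ | dot p p < 1} := disk_isOpen.measurableSet
  have h2 : MeasurableSet {p : ℝ × ℝ | c ≤ p.1} := (isClosed_le continuous_const (by fun_prop)).measurableSet
  exact h1.inter h2

theorem E0_volume : ENNReal.ofReal (Real.pi - 64 / 375) ≤ volume (E0 (23 / 25)) := by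
  set c : ℝ := 23 / 25 with hc
  have hcap : volume (cap c) ≤ ENNReal.ofReal (16 / 375) := by
    refine (cap_volume (by norm_num) (by norm_num)).trans (ENNReal.ofReal_le_ofReal ?_)
    have : Real.sqrt (2 * (1 - c)) = 2 / 5 := by
      rw [hc, show (2 : ℝ) * (1 - 23 / 25) = (2 / 5) ^ 2 by norm_num]
      exact Real.sqrt_sq (by norm_num)
    rw [this, hc]; norm_num
  have hneg : volume (Neg.neg ⁻¹' cap c) = volume (cap c) :=
    (Measure.measurePreserving_neg (volume : Measure (ℝ × ℝ))).measure_preimage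
      (cap_meas c).nullMeasurableSet
  have hsw : volume (Prod.swap ⁻¹' cap c) = volume (cap c) := volume_swap _ (cap_meas c)
  have hsn : volume (Prod.swap ⁻¹' (Neg.neg ⁻¹' cap c)) = volume (cap c) := by
    rw [volume_swap _ ((cap_meas c).preimage measurable_neg), hneg]
  have hcov : disk ⊆ E0 c ∪ (cap c ∪ (Neg.neg ⁻¹' cap c ∪ (Prod.swap ⁻¹' cap c ∪
      Prod.swap ⁻¹' (Neg.neg ⁻¹' cap c)))) := by
    rintro ⟨x, y⟩ h
    have h' : x * x + y * y < 1 := h
    by_cases h1 : c ≤ x
    · exact Or.inr (Or.inl ⟨h, h1⟩)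
    by_cases h2 : c ≤ -x
    · right; right; left
      refine ⟨?_, h2⟩
      show (-x) * (-x) + (-y) * (-y) < 1
      linarith
    by_cases h3 : c ≤ y
    · right; right; right; left
      refine ⟨?_, h3⟩
      show y * y + x * x < 1
      linarith
    by_cases h4 : c ≤ -y
    · right; right; right; right
      refine ⟨?_, h4⟩
      show (-y) * (-y) + (-x) * (-x) < 1
      linarith
    left
    push Not at h1 h2 h3 h4
    exact ⟨h, abs_lt.2 ⟨by linarith, h1⟩, abs_lt.2 ⟨by linarith, h3⟩⟩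
  have h5 := measure_mono (μ := volume) hcov
  have h6 : volume disk ≤ volume (E0 c) + ENNReal.ofReal (64 / 375) := by
    refine h5.trans ((measure_union_le _ _).trans (add_le_add le_rfl ?_))
    refine (measure_union_le _ _).trans ?_
    refine (add_le_add hcap ((measure_union_le _ _).trans (add_le_add (hneg.le.trans hcap)
      ((measure_union_le _ _).trans (add_le_add (hsw.le.trans hcap) (hsn.le.trans hcap)))))).trans ?_
    rw [← ENNReal.ofReal_add (by norm_num) (by norm_num),
      ← ENNReal.ofReal_add (by norm_num) (by norm_num),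
      ← ENNReal.ofReal_add (by norm_num) (by norm_num)]
    apply ENNReal.ofReal_le_ofReal
    norm_num
  rw [volume_disk] at h6
  rw [ENNReal.ofReal_sub _ (by norm_num)]
  exact tsub_le_iff_right.2 h6

end Pool.Agent.X41.Chee
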