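import Mathlib

set_option autoImplicit false

namespace Pool.Agent.X41.Chee

open MeasureTheory Set

/-- the Euclidean inner product of the plane `ℝ × ℝ` -/
def dot (x y : ℝ × ℝ) : ℝ := x.1 * y.1 + x.2 * y.2

/-- the open unit disk -/
def disk : Set (ℝ × ℝ) := {p | dot p p < 1}

/-- the polar norm `Φ_K° (x) = sup {x · y : y ∈ K}` -/
noncomputable def polarNorm (K : Set (ℝ × ℝ)) (x : ℝ × ℝ) : ℝ := sSup ((fun y => dot x y) '' K)

/-- the polar set `K° = {x : Φ_K° (x) < 1}` -/
def polarSet (K : Set (ℝ × ℝ)) : Set (ℝ × ℝ) := {x | polarNorm K x < 1}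

/-- the divergence of a vector field of the plane -/
noncomputable def divg (φ : ℝ × ℝ → ℝ × ℝ) (p : ℝ × ℝ) : ℝ :=
  (fderiv ℝ φ p (1, 0)).1 + (fderiv ℝ φ p (0, 1)).2

/-- the test fields: `C^1` vector fields with compact support and values in the closure of `K` -/
structure IsTest (K : Set (ℝ × ℝ)) (φ : ℝ × ℝ → ℝ × ℝ) : Prop where
  smooth : ContDiff ℝ 1 φ
  supp : HasCompactSupport φ
  mem : ∀ p, φ p ∈ closure K

/-- the anisotropic perimeter `P_K(E)`, in the distributional form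
`sup {∫_E div φ : φ ∈ C_c^1(ℝ²; ℝ²), φ(p) ∈ closure K for all p}` -/
noncomputable def perim (K E : Set (ℝ × ℝ)) : ENNReal :=
  ⨆ (φ : ℝ × ℝ → ℝ × ℝ) (_ : IsTest K φ), ENNReal.ofReal (∫ p in E, divg φ p)

/-- the anisotropic Cheeger constant `h_K(Ω)` -/
noncomputable def cheeger (K Ω : Set (ℝ × ℝ)) : ENNReal :=
  ⨅ (E : Set (ℝ × ℝ)) (_ : E ⊆ Ω ∧ MeasurableSet E ∧ 0 < volume E), perim K E / volume E

/-- the functional `J_Ω[K] = h_K(Ω) |K°|^{1/2}` -/
noncomputable def J (Ω K : Set (ℝ × ℝ)) : ENNReal :=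
  cheeger K Ω * volume (polarSet K) ^ (1 / 2 : ℝ)

/-- the class of the nonempty open bounded convex centrally symmetric sets -/
structure IsSymConvex (K : Set (ℝ × ℝ)) : Prop where
  nonempty : K.Nonempty
  isOpen : IsOpen K
  bounded : Bornology.IsBounded K
  convex : Convex ℝ K
  symm : ∀ p ∈ K, -p ∈ K

/-- centrally symmetric convex polygons with exactly `n` sides: `K` is the intersection of `n` open
half-planes `{p : a_i · p < 1}` none of which is redundant -/
def IsSymNGon (n : ℕ) (K : Set (ℝ × ℝ)) : Prop :=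
  IsSymConvex K ∧ ∃ a : Fin n → ℝ × ℝ, K = {p | ∀ i, dot (a i) p < 1} ∧
    ∀ i, {p | ∀ j, j ≠ i → dot (a j) p < 1} ≠ K

/-- the regular `n`-gon circumscribed about the unit disk -/
noncomputable def regular (n : ℕ) : Set (ℝ × ℝ) :=
  {p | ∀ k : Fin n, dot (Real.cos (2 * Real.pi * k / n), Real.sin (2 * Real.pi * k / n)) p < 1}

theorem closed_disk_sub {K : Set (ℝ × ℝ)} (h : disk ⊆ K) {p : ℝ × ℝ} (hp : dot p p ≤ 1) :
    p ∈ closure K := by
  refine closure_mono h ?_
  rw [Metric.mem_closure_iff]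
  intro ε hε
  -- take (1 - t) p
  set t : ℝ := min (1 / 2) (ε / (2 * (1 + ‖p‖))) with ht
  have h1 : 0 < 1 + ‖p‖ := by positivity
  have ht0 : 0 < t := by rw [ht]; positivity
  have ht1 : t ≤ 1 / 2 := min_le_left _ _
  have ht2 : t ≤ ε / (2 * (1 + ‖p‖)) := min_le_right _ _
  refine ⟨(1 - t) • p, ?_, ?_⟩
  · show dot ((1 - t) • p) ((1 - t) • p) < 1
    have e : dot ((1 - t) • p) ((1 - t) • p) = (1 - t) ^ 2 * dot p p := by
      simp only [dot, Prod.smul_fst, Prod.smul_snd, smul_eq_mul]; ring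
    rw [e]
    have h0 : 0 ≤ dot p p := by
      unfold dot; nlinarith [mul_self_nonneg p.1, mul_self_nonneg p.2]
    nlinarith [mul_nonneg h0 (sq_nonneg (1 - t))]
  · rw [dist_eq_norm]
    have e : p - (1 - t) • p = t • p := by
      rw [sub_smul, one_smul]; abel
    rw [e, norm_smul, Real.norm_eq_abs, abs_of_pos ht0]
    have h3 : t * (2 * (1 + ‖p‖)) ≤ ε := by
      rwa [le_div_iff₀ (by positivity)] at ht2
    have h4 : 0 ≤ ‖p‖ := norm_nonneg p
    nlinarith [mul_pos ht0 h1]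

/-- the cut-off fields -/
noncomputable def field (R : ℝ) (p : ℝ × ℝ) : ℝ × ℝ :=
  (R⁻¹ * Real.smoothTransition ((R ^ 2 - dot p p) / (R ^ 2 - 1))) • p

theorem field_contDiff (R : ℝ) : ContDiff ℝ 1 (field R) := by
  unfold field dot
  have h1 : ContDiff ℝ 1 (fun p : ℝ × ℝ => (R ^ 2 - (p.1 * p.1 + p.2 * p.2)) / (R ^ 2 - 1)) := by
    fun_prop
  exact (contDiff_const.mul (Real.smoothTransition.contDiff.comp h1)).smul contDiff_id

theorem field_zero {R : ℝ} (hR : 1 < R) {p : ℝ × ℝ} (hp : R ^ 2 ≤ dot p p) : field R p = 0 := by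
  unfold field
  have h : Real.smoothTransition ((R ^ 2 - dot p p) / (R ^ 2 - 1)) = 0 := by
    apply Real.smoothTransition.zero_of_nonpos
    apply div_nonpos_of_nonpos_of_nonneg (by linarith)
    nlinarith
  rw [h, mul_zero, zero_smul]

theorem field_disk {R : ℝ} (hR : 1 < R) {p : ℝ × ℝ} (hp : dot p p ≤ 1) :
    field R p = R⁻¹ • p := by
  unfold field
  have h : Real.smoothTransition ((R ^ 2 - dot p p) / (R ^ 2 - 1)) = 1 := by
    apply Real.smoothTransition.one_of_one_le
    rw [le_div_iff₀ (by nlinarith)]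
    linarith
  rw [h, mul_one]

theorem dot_self_nonneg (p : ℝ × ℝ) : 0 ≤ dot p p := by
  unfold dot; nlinarith [mul_self_nonneg p.1, mul_self_nonneg p.2]

theorem field_small {R : ℝ} (hR : 1 < R) (p : ℝ × ℝ) : dot (field R p) (field R p) ≤ 1 := by
  rcases le_or_gt (R ^ 2) (dot p p) with h | h
  · rw [field_zero hR h]; simp [dot]
  · have e : dot (field R p) (field R p) =
        (R⁻¹ * Real.smoothTransition ((R ^ 2 - dot p p) / (R ^ 2 - 1))) ^ 2 * dot p p := by
      unfold field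
      set c := (R⁻¹ * Real.smoothTransition ((R ^ 2 - dot p p) / (R ^ 2 - 1)))
      simp only [dot, Prod.smul_fst, Prod.smul_snd, smul_eq_mul]; ring
    rw [e]
    set s := Real.smoothTransition ((R ^ 2 - dot p p) / (R ^ 2 - 1))
    have hs0 : 0 ≤ s := Real.smoothTransition.nonneg _
    have hs1 : s ≤ 1 := Real.smoothTransition.le_one _
    have hR0 : 0 < R := by linarith
    have h1 : (R⁻¹ * s) ^ 2 ≤ R⁻¹ ^ 2 := by
      apply pow_le_pow_left₀ (by positivity)
      exact mul_le_of_le_one_right (by positivity) hs1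
    calc (R⁻¹ * s) ^ 2 * dot p p ≤ R⁻¹ ^ 2 * R ^ 2 :=
          mul_le_mul h1 h.le (dot_self_nonneg p) (by positivity)
      _ = 1 := by field_simp

theorem field_test {K : Set (ℝ × ℝ)} (h : disk ⊆ K) {R : ℝ} (hR : 1 < R) :
    IsTest K (field R) := by
  refine ⟨field_contDiff R, ?_, fun p => closed_disk_sub h (field_small hR p)⟩
  apply HasCompactSupport.of_support_subset_isCompact (K := Metric.closedBall (0 : ℝ × ℝ) R)
    (isCompact_closedBall _ _)
  intro p hp
  by_contra hcon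
  apply hp
  apply field_zero hR
  rw [Metric.mem_closedBall, dist_zero_right, not_le, Prod.norm_def, lt_sup_iff] at hcon
  unfold dot
  rcases hcon with h1 | h1
  · rw [Real.norm_eq_abs] at h1
    have : R ^ 2 ≤ |p.1| ^ 2 := pow_le_pow_left₀ (by linarith) h1.le 2
    rw [sq_abs] at this
    nlinarith [mul_self_nonneg p.2]
  · rw [Real.norm_eq_abs] at h1
    have : R ^ 2 ≤ |p.2| ^ 2 := pow_le_pow_left₀ (by linarith) h1.le 2
    rw [sq_abs] at this
    nlinarith [mul_self_nonneg p.1]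

theorem disk_isOpen : IsOpen disk := by
  unfold disk dot
  exact isOpen_lt (by fun_prop) continuous_const

theorem divg_field {R : ℝ} (hR : 1 < R) {p : ℝ × ℝ} (hp : p ∈ disk) :
    divg (field R) p = 2 * R⁻¹ := by
  have h1 : field R =ᶠ[nhds p] fun q => R⁻¹ • q := by
    filter_upwards [disk_isOpen.mem_nhds hp] with q hq
    exact field_disk hR (le_of_lt hq)
  unfold divg
  rw [h1.fderiv_eq]
  have h2 : fderiv ℝ (fun q : ℝ × ℝ => R⁻¹ • q) p = R⁻¹ • ContinuousLinearMap.id ℝ (ℝ × ℝ) := by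
    have := (hasFDerivAt_id (𝕜 := ℝ) p).const_smul R⁻¹
    exact this.fderiv
  rw [h2]
  simp
  ring

/-- the lower bound for the perimeter -/
theorem perim_ge {K : Set (ℝ × ℝ)} (h : disk ⊆ K) {E : Set (ℝ × ℝ)} (hE : E ⊆ disk)
    (hEm : MeasurableSet E) (hfin : volume E ≠ ⊤) : 2 * volume E ≤ perim K E := by
  have h1 : ∀ R : ℝ, 1 < R → ENNReal.ofReal (2 * R⁻¹ * (volume E).toReal) ≤ perim K E := by
    intro R hR
    have h2 : ∫ p in E, divg (field R) p = 2 * R⁻¹ * (volume E).toReal := by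
      rw [setIntegral_congr_fun hEm (fun p hp => divg_field hR (hE hp))]
      rw [setIntegral_const, smul_eq_mul, mul_comm]
      rfl
    rw [← h2]
    exact le_iSup₂_of_le (field R) (field_test h hR) le_rfl
  have h3 : Filter.Tendsto (fun R : ℝ => ENNReal.ofReal (2 * R⁻¹ * (volume E).toReal))
      (nhdsWithin 1 (Set.Ioi 1)) (nhds (ENNReal.ofReal (2 * (1 : ℝ)⁻¹ * (volume E).toReal))) := by
    apply ENNReal.tendsto_ofReal
    apply Filter.Tendsto.mul_const
    apply Filter.Tendsto.const_mul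
    exact (tendsto_inv₀ one_ne_zero).mono_left nhdsWithin_le_nhds
  have h4 := le_of_tendsto h3 (by
    filter_upwards [self_mem_nhdsWithin] with R hR
    exact h1 R hR)
  rw [inv_one, mul_one, ENNReal.ofReal_mul (by norm_num), ENNReal.ofReal_toReal hfin] at h4
  simpa using h4

end Pool.Agent.X41.Chee
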