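import Pool.Agent.X41.Chee.Poly

set_option autoImplicit false

namespace Pool.Agent.X41.Chee

open MeasureTheory Set

/-- the curve of normals -/
def cv (δ t : ℝ) : ℝ × ℝ := (1 - t + δ * (t * (1 - t)), t + δ * (t * (1 - t)))

/-- the parameters -/
noncomputable def tk (N : ℕ) (k : Fin N) : ℝ := (k : ℕ) / ((N : ℝ) - 1)

theorem tk_mem {N : ℕ} (hN : 2 ≤ N) (k : Fin N) : 0 ≤ tk N k ∧ tk N k ≤ 1 := by
  have h1 : (2 : ℝ) ≤ N := by exact_mod_cast hN
  have h2 : ((k : ℕ) : ℝ) ≤ N - 1 := by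
    have : (k : ℕ) + 1 ≤ N := k.2
    have : (((k : ℕ) + 1 : ℕ) : ℝ) ≤ N := by exact_mod_cast this
    push_cast at this; linarith
  unfold tk
  exact ⟨div_nonneg (by positivity) (by linarith), (div_le_one (by linarith)).2 h2⟩

theorem tk_inj {N : ℕ} (hN : 2 ≤ N) {k j : Fin N} (h : tk N k = tk N j) : k = j := by
  have h1 : (2 : ℝ) ≤ N := by exact_mod_cast hN
  unfold tk at h
  rw [div_left_inj' (by linarith)] at h
  exact Fin.ext (by exact_mod_cast h)

/-- the near-square polygon -/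
def near (N : ℕ) (δ : ℝ) : Set (ℝ × ℝ) := {p | ∀ k : Fin N, |dot (cv δ (tk N k)) p| < 1}

theorem near_sub {N : ℕ} (hN : 2 ≤ N) {δ : ℝ} {p : ℝ × ℝ} (hp : p ∈ near N δ) :
    |p.1| < 1 ∧ |p.2| < 1 := by
  constructor
  · have h := hp ⟨0, by omega⟩
    have e : dot (cv δ (tk N ⟨0, by omega⟩)) p = p.1 := by
      simp [dot, cv, tk]
    rwa [e] at h
  · have h := hp ⟨N - 1, by omega⟩
    have h1 : (2 : ℝ) ≤ N := by exact_mod_cast hN
    have e0 : tk N ⟨N - 1, by omega⟩ = 1 := by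
      unfold tk
      rw [Nat.cast_sub (by omega)]
      simp only [Nat.cast_one]
      exact div_self (by linarith)
    have e : dot (cv δ (tk N ⟨N - 1, by omega⟩)) p = p.2 := by
      rw [e0]
      simp [dot, cv]
    rwa [e] at h

theorem near_corner {N : ℕ} (hN : 2 ≤ N) {δ : ℝ} (hδ : 0 < δ) {p : ℝ × ℝ}
    (h1 : |p.1| ≤ (1 + δ)⁻¹) (h2 : |p.2| ≤ (1 + δ)⁻¹) : p ∈ near N δ := by
  intro k
  obtain ⟨ht0, ht1⟩ := tk_mem hN k
  set t := tk N k
  have hq : 0 ≤ t * (1 - t) := mul_nonneg ht0 (by linarith)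
  have hq1 : t * (1 - t) ≤ 1 / 4 := by nlinarith [sq_nonneg (t - 1 / 2)]
  have hd : 0 ≤ δ * (t * (1 - t)) := mul_nonneg hδ.le hq
  have h3 : |dot (cv δ t) p| ≤ (1 - t + δ * (t * (1 - t))) * |p.1| +
      (t + δ * (t * (1 - t))) * |p.2| := by
    unfold dot cv
    refine (abs_add_le _ _).trans (le_of_eq ?_)
    rw [abs_mul, abs_mul, abs_of_nonneg (show 0 ≤ 1 - t + δ * (t * (1 - t)) by linarith),
      abs_of_nonneg (show 0 ≤ t + δ * (t * (1 - t)) by linarith)]
  have h4 : (1 - t + δ * (t * (1 - t))) * |p.1| + (t + δ * (t * (1 - t))) * |p.2| ≤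
      (1 + 2 * (δ * (t * (1 - t)))) * (1 + δ)⁻¹ := by
    have h5 := mul_le_mul_of_nonneg_left h1 (show 0 ≤ 1 - t + δ * (t * (1 - t)) by linarith)
    have h6 := mul_le_mul_of_nonneg_left h2 (show 0 ≤ t + δ * (t * (1 - t)) by linarith)
    linarith
  refine lt_of_le_of_lt (h3.trans h4) ?_
  rw [← div_eq_mul_inv, div_lt_one (by linarith)]
  nlinarith

/-- the witness of the irredundancy of the constraint with parameter `t` -/
theorem witness {δ : ℝ} (hδ : 0 < δ) (hδ1 : δ < 1) (t : ℝ) :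
    ∃ (x : ℝ × ℝ) (κ : ℝ), 0 < κ ∧ κ < 2 ∧ ∀ s, dot (cv δ s) x = 1 - κ * (s - t) ^ 2 := by
  set D := 1 + δ * (t ^ 2 + (1 - t) ^ 2) with hD
  have hD1 : 1 ≤ D := by rw [hD]; nlinarith [sq_nonneg t, sq_nonneg (1 - t)]
  refine ⟨(1 - 2 * δ / D * t ^ 2, 1 - 2 * δ / D * (1 - t) ^ 2), 2 * δ / D, by positivity, ?_, ?_⟩
  · rw [div_lt_iff₀ (by linarith)]; linarith
  · intro s
    unfold dot cv
    have hD0 : D ≠ 0 := by linarith
    simp only
    have key : δ * (1 - 2 * δ / D * t ^ 2 + (1 - 2 * δ / D * (1 - t) ^ 2)) = 2 * δ / D := by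
      field_simp
      rw [hD]; ring
    have e : (1 - s + δ * (s * (1 - s))) * (1 - 2 * δ / D * t ^ 2) +
        (s + δ * (s * (1 - s))) * (1 - 2 * δ / D * (1 - t) ^ 2) =
        (1 - s) * (1 - 2 * δ / D * t ^ 2) + s * (1 - 2 * δ / D * (1 - t) ^ 2) +
        (s * (1 - s)) * (δ * (1 - 2 * δ / D * t ^ 2 + (1 - 2 * δ / D * (1 - t) ^ 2))) := by ring
    rw [e, key]
    ring

theorem near_ngon {N : ℕ} (hN : 2 ≤ N) {δ : ℝ} (hδ : 0 < δ) (hδ1 : δ < 1) :
    IsSymNGon (2 * N) (near N δ) := by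
  set a : Fin N × Bool → ℝ × ℝ := fun i => if i.2 then cv δ (tk N i.1) else -cv δ (tk N i.1)
    with ha
  have hneg : ∀ x y : ℝ × ℝ, dot (-x) y = - dot x y := by
    intro x y; simp only [dot, Prod.fst_neg, Prod.snd_neg]; ring
  have hneg' : ∀ x y : ℝ × ℝ, dot x (-y) = - dot x y := by
    intro x y; simp only [dot, Prod.fst_neg, Prod.snd_neg]; ring
  have hset : near N δ = {p | ∀ i, dot (a i) p < 1} := by
    ext p
    constructor
    · rintro hp ⟨k, b⟩
      have h := abs_lt.1 (hp k)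
      cases b
      · show dot (-cv δ (tk N k)) p < 1
        rw [hneg]; linarith
      · exact h.2
    · intro hp k
      rw [abs_lt]
      have h1 : dot (cv δ (tk N k)) p < 1 := hp (k, true)
      have h2 : dot (-cv δ (tk N k)) p < 1 := hp (k, false)
      rw [hneg] at h2
      exact ⟨by linarith, h1⟩
  have hsymm : ∀ p ∈ near N δ, -p ∈ near N δ := by
    intro p hp k
    rw [hneg', abs_neg]
    exact hp k
  have hb : Bornology.IsBounded (near N δ) := by
    apply (Metric.isBounded_closedBall (x := (0 : ℝ × ℝ)) (r := 1)).subset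
    intro p hp
    obtain ⟨h1, h2⟩ := near_sub hN hp
    rw [Metric.mem_closedBall, dist_zero_right, Prod.norm_def, sup_le_iff]
    exact ⟨h1.le, h2.le⟩
  have hcard : Fintype.card (Fin N × Bool) = 2 * N := by
    simp [mul_comm]
  set e : Fin (2 * N) ≃ Fin N × Bool := (Fintype.equivFinOfCardEq hcard).symm
  refine ⟨isSymConvex_of hset hb hsymm, fun i => a (e i), ?_, fun i hcon => ?_⟩
  · rw [hset]
    ext p
    exact ⟨fun h i => h (e i), fun h i => by simpa using h (e.symm i)⟩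
  · -- the witness
    obtain ⟨ht0, ht1⟩ := tk_mem hN (e i).1
    obtain ⟨x, κ, hκ0, hκ2, hx⟩ := witness hδ hδ1 (tk N (e i).1)
    have hval : ∀ k : Fin N, k ≠ (e i).1 → dot (cv δ (tk N k)) x < 1 := by
      intro k hk
      rw [hx]
      have h1 : tk N k - tk N (e i).1 ≠ 0 := fun h => hk (tk_inj hN (by linarith))
      have h2 : 0 < (tk N k - tk N (e i).1) ^ 2 := by positivity
      nlinarith
    have hval2 : ∀ k : Fin N, -dot (cv δ (tk N k)) x < 1 := by
      intro k
      rw [hx]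
      obtain ⟨h1, h2⟩ := tk_mem hN k
      have h3 : (tk N k - tk N (e i).1) ^ 2 ≤ 1 := by
        rw [sq_le_one_iff_abs_le_one, abs_le]
        constructor <;> linarith
      nlinarith
    have hval3 : dot (cv δ (tk N (e i).1)) x = 1 := by rw [hx]; ring
    -- the point
    rcases hi : (e i).2 with _ | _
    · have h1 : -x ∈ {p | ∀ j, j ≠ i → dot (a (e j)) p < 1} := by
        intro j hj
        have hne : e j ≠ e i := fun h => hj (e.injective h)
        rcases hj2 : (e j).2 with _ | _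
        · show dot (if (e j).2 then cv δ (tk N (e j).1) else -cv δ (tk N (e j).1)) (-x) < 1
          rw [hj2]
          simp only [Bool.false_eq_true, if_false]
          rw [hneg, hneg', neg_neg]
          apply hval
          intro h
          exact hne (Prod.ext h (by rw [hj2, hi]))
        · show dot (if (e j).2 then cv δ (tk N (e j).1) else -cv δ (tk N (e j).1)) (-x) < 1
          rw [hj2]
          simp only [if_true]
          rw [hneg']
          exact hval2 _
      rw [hcon] at h1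
      have h2 := h1 (e i).1
      rw [hneg', abs_neg, hval3, abs_one] at h2
      exact lt_irrefl _ h2
    · have h1 : x ∈ {p | ∀ j, j ≠ i → dot (a (e j)) p < 1} := by
        intro j hj
        have hne : e j ≠ e i := fun h => hj (e.injective h)
        rcases hj2 : (e j).2 with _ | _
        · show dot (if (e j).2 then cv δ (tk N (e j).1) else -cv δ (tk N (e j).1)) x < 1
          rw [hj2]
          simp only [Bool.false_eq_true, if_false]
          rw [hneg]
          exact hval2 _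
        · show dot (if (e j).2 then cv δ (tk N (e j).1) else -cv δ (tk N (e j).1)) x < 1
          rw [hj2]
          simp only [if_true]
          apply hval
          intro h
          exact hne (Prod.ext h (by rw [hj2, hi]))
      rw [hcon] at h1
      have h2 := h1 (e i).1
      rw [hval3, abs_one] at h2
      exact lt_irrefl _ h2

/-- the area of a square with vertical and horizontal diagonals -/
theorem diamond_volume {ρ : ℝ} (hρ : 0 ≤ ρ) :
    volume {p : ℝ × ℝ | |p.1| + |p.2| < ρ} ≤ ENNReal.ofReal (2 * ρ ^ 2) := by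
  have hsub : {p : ℝ × ℝ | |p.1| + |p.2| < ρ} ⊆ regionBetween (fun x => -(ρ - |x|))
      (fun x => ρ - |x|) (Set.Icc (-ρ) ρ) := by
    rintro ⟨x, y⟩ h
    change |x| + |y| < ρ at h
    have h1 := abs_nonneg x
    have h2 := abs_nonneg y
    refine ⟨abs_le.1 (show |x| ≤ ρ by linarith), ?_⟩
    exact abs_lt.1 (show |y| < ρ - |x| by linarith)
  refine (measure_mono hsub).trans ?_
  have hcont : Continuous (fun x : ℝ => ρ - |x|) := by fun_prop
  have hint : IntegrableOn (fun x : ℝ => ρ - |x|) (Set.Icc (-ρ) ρ) :=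
    hcont.continuousOn.integrableOn_compact isCompact_Icc
  have h5 : (volume : Measure (ℝ × ℝ)) (regionBetween (fun x => -(ρ - |x|))
      (fun x => ρ - |x|) (Set.Icc (-ρ) ρ)) =
      ENNReal.ofReal (∫ y in Set.Icc (-ρ) ρ, ((fun x => ρ - |x|) - (fun x => -(ρ - |x|))) y) := by
    apply volume_regionBetween_eq_integral hint.neg hint measurableSet_Icc
    intro x hx
    have h1 : |x| ≤ ρ := abs_le.2 hx
    show -(ρ - |x|) ≤ ρ - |x|
    linarith
  rw [h5]
  apply ENNReal.ofReal_le_ofReal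
  apply le_of_eq
  rw [integral_Icc_eq_integral_Ioc, ← intervalIntegral.integral_of_le (by linarith)]
  have e : (fun y : ℝ => ((fun x => ρ - |x|) - (fun x => -(ρ - |x|))) y) =
      fun y => 2 * ρ - 2 * |y| := by
    funext y
    show ρ - |y| - -(ρ - |y|) = _
    ring
  rw [e]
  have hc2 : Continuous (fun y : ℝ => 2 * ρ - 2 * |y|) := by fun_prop
  rw [← intervalIntegral.integral_add_adjacent_intervals (b := 0) (hc2.intervalIntegrable _ _)
    (hc2.intervalIntegrable _ _)]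
  have e1 : ∫ y in (0 : ℝ)..ρ, (2 * ρ - 2 * |y|) = ρ ^ 2 := by
    have : ∫ y in (0 : ℝ)..ρ, (2 * ρ - 2 * |y|) = ∫ y in (0 : ℝ)..ρ, (2 * ρ - 2 * y) := by
      apply intervalIntegral.integral_congr
      intro y hy
      rw [Set.uIcc_of_le hρ] at hy
      simp only [abs_of_nonneg hy.1]
    rw [this]
    have hd : ∀ y ∈ Set.uIcc (0 : ℝ) ρ, HasDerivAt (fun y : ℝ => 2 * ρ * y - y ^ 2)
        (2 * ρ - 2 * y) y := by
      intro y _
      have h1 := ((hasDerivAt_id y).const_mul (2 * ρ)).sub (hasDerivAt_pow 2 y)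
      refine h1.congr_deriv ?_
      simp
    rw [intervalIntegral.integral_eq_sub_of_hasDerivAt hd (Continuous.intervalIntegrable
      (by fun_prop) _ _)]
    ring
  have e2 : ∫ y in (-ρ)..0, (2 * ρ - 2 * |y|) = ρ ^ 2 := by
    have : ∫ y in (-ρ)..0, (2 * ρ - 2 * |y|) = ∫ y in (-ρ)..0, (2 * ρ + 2 * y) := by
      apply intervalIntegral.integral_congr
      intro y hy
      rw [Set.uIcc_of_le (by linarith)] at hy
      simp only [abs_of_nonpos hy.2]
      ring
    rw [this]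
    have hd : ∀ y ∈ Set.uIcc (-ρ : ℝ) 0, HasDerivAt (fun y : ℝ => 2 * ρ * y + y ^ 2)
        (2 * ρ + 2 * y) y := by
      intro y _
      have h1 := ((hasDerivAt_id y).const_mul (2 * ρ)).add (hasDerivAt_pow 2 y)
      refine h1.congr_deriv ?_
      simp
    rw [intervalIntegral.integral_eq_sub_of_hasDerivAt hd (Continuous.intervalIntegrable
      (by fun_prop) _ _)]
    ring
  rw [e1, e2]
  ring

theorem polar_near {N : ℕ} (hN : 2 ≤ N) {δ : ℝ} (hδ : 0 < δ) :
    polarSet (near N δ) ⊆ {p | |p.1| + |p.2| < 1 + δ} := by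
  intro y hy
  have hy' : polarNorm (near N δ) y < 1 := hy
  have hbdd : BddAbove ((fun x => dot y x) '' near N δ) := by
    refine ⟨|y.1| + |y.2|, ?_⟩
    rintro _ ⟨x, hx, rfl⟩
    obtain ⟨h1, h2⟩ := near_sub hN hx
    show y.1 * x.1 + y.2 * x.2 ≤ _
    have h3 : y.1 * x.1 ≤ |y.1| * |x.1| := by rw [← abs_mul]; exact le_abs_self _
    have h4 : y.2 * x.2 ≤ |y.2| * |x.2| := by rw [← abs_mul]; exact le_abs_self _
    nlinarith [abs_nonneg y.1, abs_nonneg y.2]
  have hi : 0 < (1 + δ)⁻¹ := by positivity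
  -- the corner
  obtain ⟨s1, h11, h12⟩ : ∃ s : ℝ, |s| ≤ 1 ∧ y.1 * s = |y.1| := by
    rcases le_total 0 y.1 with h | h
    · exact ⟨1, by simp, by rw [abs_of_nonneg h, mul_one]⟩
    · exact ⟨-1, by simp, by rw [abs_of_nonpos h]; ring⟩
  obtain ⟨s2, h21, h22⟩ : ∃ s : ℝ, |s| ≤ 1 ∧ y.2 * s = |y.2| := by
    rcases le_total 0 y.2 with h | h
    · exact ⟨1, by simp, by rw [abs_of_nonneg h, mul_one]⟩
    · exact ⟨-1, by simp, by rw [abs_of_nonpos h]; ring⟩
  have hq : ((1 + δ)⁻¹ * s1, (1 + δ)⁻¹ * s2) ∈ near N δ := by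
    apply near_corner hN hδ
    · show |(1 + δ)⁻¹ * s1| ≤ _
      rw [abs_mul, abs_of_pos hi]
      exact mul_le_of_le_one_right hi.le h11
    · show |(1 + δ)⁻¹ * s2| ≤ _
      rw [abs_mul, abs_of_pos hi]
      exact mul_le_of_le_one_right hi.le h21
  have h3 : dot y ((1 + δ)⁻¹ * s1, (1 + δ)⁻¹ * s2) ≤ polarNorm (near N δ) y :=
    le_csSup hbdd (Set.mem_image_of_mem _ hq)
  have h4 : dot y ((1 + δ)⁻¹ * s1, (1 + δ)⁻¹ * s2) = (1 + δ)⁻¹ * (|y.1| + |y.2|) := by
    show y.1 * ((1 + δ)⁻¹ * s1) + y.2 * ((1 + δ)⁻¹ * s2) = _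
    rw [← h12, ← h22]; ring
  rw [h4] at h3
  have h5 := lt_of_le_of_lt h3 hy'
  rw [inv_mul_lt_iff₀ (by linarith), mul_one] at h5
  exact h5

theorem J_near_le {N : ℕ} (hN : 2 ≤ N) {δ : ℝ} (hδ : 0 < δ) : J disk (near N δ) ≤
    ENNReal.ofReal ((184 / 25) / (Real.pi - 64 / 375) * Real.sqrt (2 * (1 + δ) ^ 2)) := by
  have hpi : 0 < Real.pi - 64 / 375 := by linarith [Real.pi_gt_three]
  rw [ENNReal.ofReal_mul (by positivity)]
  unfold J
  refine mul_le_mul' (cheeger_le fun p hp => ?_) ?_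
  · obtain ⟨h1, h2⟩ := near_sub hN hp
    exact ⟨h1.le, h2.le⟩
  · rw [Real.sqrt_eq_rpow, ← ENNReal.ofReal_rpow_of_nonneg (by positivity) (by norm_num)]
    apply ENNReal.rpow_le_rpow _ (by norm_num)
    exact (measure_mono (polar_near hN hδ)).trans (diamond_volume (by linarith))

/-- the numerical inequality -/
theorem numeric {n : ℕ} (hn : 22 ≤ n) :
    (184 / 25) / (Real.pi - 64 / 375) * Real.sqrt (2 * (1 + 1 / 10000) ^ 2) <
      2 * Real.sqrt (Real.pi * Real.cos (Real.pi / n) ^ 2) := by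
  have h1 := Real.pi_gt_d4
  have h2 := Real.pi_lt_d4
  have hn0 : (22 : ℝ) ≤ n := by exact_mod_cast hn
  have hpi : 0 < Real.pi - 64 / 375 := by linarith
  have h3 : (184 / 25) / (Real.pi - 64 / 375) ≤ 2.4776 := by
    rw [div_le_iff₀ hpi]; norm_num at h1 ⊢; linarith
  have hx : Real.pi / n ≤ 0.14280 := by
    rw [div_le_iff₀ (by linarith)]
    norm_num at h2 ⊢
    nlinarith
  have hx0 : 0 ≤ Real.pi / n := by positivity
  have h4 : 0.9796 ≤ Real.cos (Real.pi / n) ^ 2 := by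
    have h5 := Real.cos_sq_add_sin_sq (Real.pi / n)
    have h6 := Real.sin_sq_le_sq (x := Real.pi / n)
    nlinarith
  have h7 : 12.309 < 4 * (Real.pi * Real.cos (Real.pi / n) ^ 2) := by
    nlinarith
  have h8 : 2 * Real.sqrt (Real.pi * Real.cos (Real.pi / n) ^ 2) =
      Real.sqrt (4 * (Real.pi * Real.cos (Real.pi / n) ^ 2)) := by
    rw [Real.sqrt_mul (by norm_num : (0 : ℝ) ≤ 4)]
    congr 1
    rw [show (4 : ℝ) = 2 ^ 2 by norm_num]
    exact (Real.sqrt_sq (by norm_num)).symm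
  rw [h8]
  have h9 : 0 ≤ (184 / 25) / (Real.pi - 64 / 375) := by positivity
  have h10 : (184 / 25) / (Real.pi - 64 / 375) * Real.sqrt (2 * (1 + 1 / 10000) ^ 2) ≤
      Real.sqrt (2.4776 ^ 2 * (2 * (1 + 1 / 10000) ^ 2)) := by
    rw [Real.sqrt_mul (by norm_num : (0 : ℝ) ≤ 2.4776 ^ 2),
      Real.sqrt_sq (by norm_num : (0 : ℝ) ≤ 2.4776)]
    exact mul_le_mul_of_nonneg_right h3 (Real.sqrt_nonneg _)
  refine lt_of_le_of_lt h10 ?_
  apply Real.sqrt_lt_sqrt (by positivity)
  refine lt_trans ?_ h7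
  norm_num

end Pool.Agent.X41.Chee
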