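import Pool.Agent.X41.Chee.Up

set_option autoImplicit false

namespace Pool.Agent.X41.Chee

open MeasureTheory Set

/-! ### Regular polygons -/

/-- the normals of the regular polygon -/
noncomputable def un (n : ℕ) (k : Fin n) : ℝ × ℝ :=
  (Real.cos (2 * Real.pi * k / n), Real.sin (2 * Real.pi * k / n))

theorem un_dot {n : ℕ} (k j : Fin n) :
    dot (un n k) (un n j) = Real.cos (2 * Real.pi * k / n - 2 * Real.pi * j / n) := by
  rw [Real.cos_sub]; rfl

theorem dot_sq_le (x y : ℝ × ℝ) : dot x y ^ 2 ≤ dot x x * dot y y := by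
  unfold dot
  nlinarith [sq_nonneg (x.1 * y.2 - x.2 * y.1)]

theorem dot_le (x y : ℝ × ℝ) : dot x y ≤ Real.sqrt (dot x x) * Real.sqrt (dot y y) := by
  rw [← Real.sqrt_mul (dot_self_nonneg x)]
  exact Real.le_sqrt_of_sq_le (dot_sq_le x y)

theorem disk_sub_regular {n : ℕ} : disk ⊆ regular n := by
  intro p hp k
  have h1 : dot (un n k) (un n k) = 1 := by rw [un_dot]; simp
  have h2 := dot_sq_le (un n k) p
  rw [h1, one_mul] at h2
  have h3 : dot p p < 1 := hp
  show dot (un n k) p < 1
  nlinarith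

/-- some normal makes an angle at most `π / n` with `p` -/
theorem exists_normal {n : ℕ} (hn : 2 ≤ n) (p : ℝ × ℝ) :
    ∃ k : Fin n, Real.sqrt (dot p p) * Real.cos (Real.pi / n) ≤ dot (un n k) p := by
  have hn0 : (0 : ℝ) < n := by positivity
  have hpi := Real.pi_pos
  set z : ℂ := ⟨p.1, p.2⟩ with hz
  set θ := Complex.arg z with hθ
  have hr : ‖z‖ = Real.sqrt (dot p p) := by
    rw [Complex.norm_def, Complex.normSq_apply]; rfl
  have h1 : p.1 = Real.sqrt (dot p p) * Real.cos θ := by
    rw [← hr]; exact (Complex.norm_mul_cos_arg z).symm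
  have h2 : p.2 = Real.sqrt (dot p p) * Real.sin θ := by
    rw [← hr]; exact (Complex.norm_mul_sin_arg z).symm
  set m : ℤ := round (θ * n / (2 * Real.pi)) with hm
  have h3 : |θ * n / (2 * Real.pi) - m| ≤ 1 / 2 := abs_sub_round _
  have hnz : (n : ℤ) ≠ 0 := by omega
  have hk0 : 0 ≤ m % n := Int.emod_nonneg m hnz
  have hk1 : m % n < n := Int.emod_lt_of_pos m (by omega)
  refine ⟨⟨(m % n).toNat, by omega⟩, ?_⟩
  set k : Fin n := ⟨(m % n).toNat, by omega⟩ with hk
  have hkc : ((k : ℕ) : ℝ) = m - n * (m / n : ℤ) := by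
    have h4 : ((m % n).toNat : ℤ) = m - n * (m / n) := by
      rw [Int.toNat_of_nonneg hk0]
      have := Int.emod_add_mul_ediv m n
      linarith
    have h5 : ((k : ℕ) : ℤ) = m - n * (m / n) := h4
    exact_mod_cast congrArg (fun x : ℤ => (x : ℝ)) h5
  have hα : 2 * Real.pi * (k : ℕ) / n = 2 * Real.pi * m / n - (m / n : ℤ) * (2 * Real.pi) := by
    rw [hkc]; field_simp
  have h6 : un n k = (Real.cos (2 * Real.pi * m / n), Real.sin (2 * Real.pi * m / n)) := by
    unfold un
    rw [hα, Real.cos_sub_int_mul_two_pi, Real.sin_sub_int_mul_two_pi]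
  have h7 : dot (un n k) p = Real.sqrt (dot p p) * Real.cos (θ - 2 * Real.pi * m / n) := by
    rw [h6, Real.cos_sub]
    show Real.cos _ * p.1 + Real.sin _ * p.2 = _
    rw [h1, h2]
    have e : Real.sqrt (dot (Real.sqrt (dot p p) * Real.cos θ, Real.sqrt (dot p p) * Real.sin θ)
      (Real.sqrt (dot p p) * Real.cos θ, Real.sqrt (dot p p) * Real.sin θ)) = Real.sqrt (dot p p) := by
      have : (Real.sqrt (dot p p) * Real.cos θ, Real.sqrt (dot p p) * Real.sin θ) = p := by
        rw [← h1, ← h2]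
      rw [this]
    ring
  rw [h7]
  apply mul_le_mul_of_nonneg_left _ (Real.sqrt_nonneg _)
  rw [← Real.cos_abs (θ - 2 * Real.pi * m / n)]
  apply Real.cos_le_cos_of_nonneg_of_le_pi (abs_nonneg _)
  · apply div_le_self hpi.le
    have : (1 : ℝ) ≤ n := by exact_mod_cast (by omega : 1 ≤ n)
    exact this
  · have h8 : θ - 2 * Real.pi * m / n = (θ * n / (2 * Real.pi) - m) * (2 * Real.pi / n) := by
      field_simp
    rw [h8, abs_mul, abs_of_pos (show 0 < 2 * Real.pi / n by positivity)]
    calc |θ * n / (2 * Real.pi) - m| * (2 * Real.pi / n) ≤ 1 / 2 * (2 * Real.pi / n) :=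
          mul_le_mul_of_nonneg_right h3 (by positivity)
      _ = Real.pi / n := by ring

theorem cos_pos {n : ℕ} (hn : 3 ≤ n) : 0 < Real.cos (Real.pi / n) := by
  apply Real.cos_pos_of_mem_Ioo
  have hpi := Real.pi_pos
  have hn0 : (3 : ℝ) ≤ n := by exact_mod_cast hn
  constructor
  · have : 0 < Real.pi / n := by positivity
    linarith
  · rw [div_lt_div_iff₀ (by positivity) (by norm_num)]
    nlinarith

theorem regular_circ {n : ℕ} (hn : 3 ≤ n) {p : ℝ × ℝ} (hp : p ∈ regular n) :
    Real.sqrt (dot p p) < (Real.cos (Real.pi / n))⁻¹ := by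
  obtain ⟨k, hk⟩ := exists_normal (n := n) (by omega) p
  have h1 : dot (un n k) p < 1 := hp k
  have h2 := lt_of_le_of_lt hk h1
  rwa [← lt_div_iff₀ (cos_pos hn), one_div] at h2

theorem halfplane_open (a : ℝ × ℝ) : IsOpen {p : ℝ × ℝ | dot a p < 1} := by
  unfold dot
  exact isOpen_lt (by fun_prop) continuous_const

theorem halfplane_convex (a : ℝ × ℝ) : Convex ℝ {p : ℝ × ℝ | dot a p < 1} := by
  have h : IsLinearMap ℝ (fun p : ℝ × ℝ => dot a p) := by
    constructor
    · intro x y; simp only [dot, Prod.fst_add, Prod.snd_add]; ring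
    · intro c x; simp only [dot, Prod.smul_fst, Prod.smul_snd, smul_eq_mul]; ring
  exact convex_halfSpace_lt h 1

theorem bounded_of {K : Set (ℝ × ℝ)} {r : ℝ} (h : ∀ p ∈ K, Real.sqrt (dot p p) ≤ r) :
    Bornology.IsBounded K := by
  apply (Metric.isBounded_closedBall (x := (0 : ℝ × ℝ)) (r := r)).subset
  intro p hp
  rw [Metric.mem_closedBall, dist_zero_right, Prod.norm_def, sup_le_iff]
  have h1 := h p hp
  constructor
  · refine le_trans ?_ h1
    rw [Real.norm_eq_abs]
    apply Real.le_sqrt_of_sq_le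
    rw [sq_abs]
    unfold dot
    nlinarith [mul_self_nonneg p.2]
  · refine le_trans ?_ h1
    rw [Real.norm_eq_abs]
    apply Real.le_sqrt_of_sq_le
    rw [sq_abs]
    unfold dot
    nlinarith [mul_self_nonneg p.1]

/-- polygons given by a finite family of normals -/
theorem isSymConvex_of {ι : Type} [Finite ι] {a : ι → ℝ × ℝ} {K : Set (ℝ × ℝ)}
    (hK : K = {p | ∀ i, dot (a i) p < 1}) (hb : Bornology.IsBounded K) (hs : ∀ p ∈ K, -p ∈ K) :
    IsSymConvex K := by
  have hK' : K = ⋂ i, {p | dot (a i) p < 1} := by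
    rw [hK]; ext p; simp
  refine ⟨⟨0, ?_⟩, ?_, hb, ?_, hs⟩
  · rw [hK]; intro i; simp [dot]
  · rw [hK']; exact isOpen_iInter_of_finite fun i => halfplane_open _
  · rw [hK']; exact convex_iInter fun i => halfplane_convex _

theorem regular_ngon {n : ℕ} (hn : 3 ≤ n) (he : Even n) : IsSymNGon n (regular n) := by
  have hn0 : (0 : ℝ) < n := by positivity
  have hpi := Real.pi_pos
  refine ⟨isSymConvex_of (a := un n) rfl (bounded_of (fun p hp => (regular_circ hn hp).le)) ?_,
    un n, rfl, fun i hcon => ?_⟩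
  · intro p hp k
    obtain ⟨m, hm⟩ := he
    have hm' : (n : ℝ) = 2 * m := by rw [hm]; push_cast; ring
    have hm0 : (0 : ℝ) < m := by linarith
    -- the opposite normal
    have h1 : ∃ j : Fin n, ∀ q, dot (un n j) q = - dot (un n k) q := by
      by_cases hk : (k : ℕ) < m
      · refine ⟨⟨k + m, by omega⟩, fun q => ?_⟩
        have e : 2 * Real.pi * (((k : ℕ) + m : ℕ) : ℝ) / n = 2 * Real.pi * (k : ℕ) / n + Real.pi := by
          push_cast
          rw [hm']
          field_simp
        have e2 : un n ⟨k + m, by omega⟩ = (-(un n k).1, -(un n k).2) := by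
          unfold un
          rw [show (((⟨k + m, by omega⟩ : Fin n) : ℕ) : ℝ) = (((k : ℕ) + m : ℕ) : ℝ) from rfl, e,
            Real.cos_add_pi, Real.sin_add_pi]
        rw [e2]
        simp only [dot]; ring
      · refine ⟨⟨k - m, by omega⟩, fun q => ?_⟩
        have e : 2 * Real.pi * (((k : ℕ) - m : ℕ) : ℝ) / n = 2 * Real.pi * (k : ℕ) / n - Real.pi := by
          rw [Nat.cast_sub (by omega), hm']
          field_simp
        have e2 : un n ⟨k - m, by omega⟩ = (-(un n k).1, -(un n k).2) := by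
          unfold un
          rw [show (((⟨k - m, by omega⟩ : Fin n) : ℕ) : ℝ) = (((k : ℕ) - m : ℕ) : ℝ) from rfl, e,
            Real.cos_sub_pi, Real.sin_sub_pi]
        rw [e2]
        simp only [dot]; ring
    obtain ⟨j, hj⟩ := h1
    have h2 : dot (un n j) p < 1 := hp j
    rw [hj] at h2
    show dot (un n k) (-p) < 1
    have h3 : dot (un n k) (-p) = - dot (un n k) p := by
      simp only [dot, Prod.fst_neg, Prod.snd_neg]; ring
    rw [h3]; exact h2
  · have h1 : un n i ∈ {p | ∀ j, j ≠ i → dot (un n j) p < 1} := by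
      intro j hj
      rw [un_dot]
      refine lt_of_le_of_ne (Real.cos_le_one _) fun h => ?_
      rw [Real.cos_eq_one_iff_of_lt_of_lt] at h
      · have h2 : (2 * Real.pi) * (((j : ℕ) : ℝ) - (i : ℕ)) = 0 := by
          field_simp at h
          linarith
        have h3 : ((j : ℕ) : ℝ) = (i : ℕ) := by
          have := (mul_eq_zero.1 h2).resolve_left (by positivity)
          linarith
        exact hj (Fin.ext (by exact_mod_cast h3))
      · have h4 : ((i : ℕ) : ℝ) < n := by exact_mod_cast i.2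
        have h5 : (0 : ℝ) ≤ (j : ℕ) := by positivity
        rw [← sub_div, ← mul_sub, lt_div_iff₀ hn0]
        nlinarith
      · have h4 : ((j : ℕ) : ℝ) < n := by exact_mod_cast j.2
        have h5 : (0 : ℝ) ≤ (i : ℕ) := by positivity
        rw [← sub_div, ← mul_sub, div_lt_iff₀ hn0]
        nlinarith
    rw [hcon] at h1
    have h2 := h1 i
    have h3 : dot (un n i) (un n i) = 1 := by rw [un_dot]; simp
    change dot (un n i) (un n i) < 1 at h2
    linarith

/-- the polar of the regular polygon contains a disk -/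
theorem polar_regular {n : ℕ} (hn : 3 ≤ n) : diskR (Real.cos (Real.pi / n)) ⊆
    polarSet (regular n) := by
  intro y hy
  have hc := cos_pos hn
  have h1 : Real.sqrt (dot y y) < Real.cos (Real.pi / n) := by
    rw [Real.sqrt_lt' hc]; exact hy
  have h0 : (0 : ℝ × ℝ) ∈ regular n := by intro k; simp [dot]
  show polarNorm (regular n) y < 1
  have h2 : polarNorm (regular n) y ≤ Real.sqrt (dot y y) * (Real.cos (Real.pi / n))⁻¹ := by
    apply csSup_le ⟨_, Set.mem_image_of_mem _ h0⟩
    rintro _ ⟨x, hx, rfl⟩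
    exact (dot_le y x).trans (mul_le_mul_of_nonneg_left (regular_circ hn hx).le
      (Real.sqrt_nonneg _))
  refine lt_of_le_of_lt h2 ?_
  rw [← div_eq_mul_inv, div_lt_one hc]
  exact h1

theorem J_regular_ge {n : ℕ} (hn : 3 ≤ n) : ENNReal.ofReal
    (2 * Real.sqrt (Real.pi * Real.cos (Real.pi / n) ^ 2)) ≤ J disk (regular n) := by
  have h1 : ENNReal.ofReal (Real.pi * Real.cos (Real.pi / n) ^ 2) ≤
      volume (polarSet (regular n)) := by
    rw [← volume_diskR (cos_pos hn).le]
    exact measure_mono (polar_regular hn)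
  rw [ENNReal.ofReal_mul (by norm_num)]
  unfold J
  refine mul_le_mul' ?_ ?_
  · rw [show ENNReal.ofReal 2 = 2 by simp]
    exact cheeger_ge disk_sub_regular
  · rw [Real.sqrt_eq_rpow, ← ENNReal.ofReal_rpow_of_nonneg (by positivity) (by norm_num)]
    exact ENNReal.rpow_le_rpow h1 (by norm_num)

end Pool.Agent.X41.Chee
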