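import Pool.Agent.X41.Chee.Area

set_option autoImplicit false

namespace Pool.Agent.X41.Chee

open MeasureTheory Set

theorem slice_le {g g' : ℝ → ℝ} (hg : ∀ x, HasDerivAt g (g' x) x) (hc : Continuous g')
    (hb : ∀ x, |g x| ≤ 1) {r : ℝ} (hr : 0 ≤ r) : ∫ x in Set.Ioo (-r) r, g' x ≤ 2 := by
  rw [← integral_Ioc_eq_integral_Ioo, ← intervalIntegral.integral_of_le (by linarith)]
  rw [intervalIntegral.integral_eq_sub_of_hasDerivAt (fun x _ => hg x) (hc.intervalIntegrable _ _)]
  have h1 := (abs_le.1 (hb r)).2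
  have h2 := (abs_le.1 (hb (-r))).1
  linarith

theorem slice_set {c y : ℝ} (hc1 : c ≤ 1) (hy : |y| < c) :
    ∀ x : ℝ, x * x + y * y < 1 ∧ |x| < c ↔ x ∈ Set.Ioo (-min c (Real.sqrt (1 - y * y)))
      (min c (Real.sqrt (1 - y * y))) := by
  intro x
  rw [Set.mem_Ioo, ← abs_lt, lt_min_iff]
  have hy2 : y * y < 1 := by
    have h1 := sq_abs y
    have h2 := abs_nonneg y
    nlinarith
  have h3 : |x| < Real.sqrt (1 - y * y) ↔ x * x < 1 - y * y := by
    rw [Real.lt_sqrt (abs_nonneg x), sq_abs, sq]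
  rw [h3]
  constructor
  · rintro ⟨a, b⟩; exact ⟨b, by linarith⟩
  · rintro ⟨a, b⟩; exact ⟨by linarith, a⟩

variable {φ : ℝ × ℝ → ℝ × ℝ}

theorem deriv_cont (h : ContDiff ℝ 1 φ) (v : ℝ × ℝ) : Continuous (fun p => fderiv ℝ φ p v) :=
  (h.continuous_fderiv one_ne_zero).clm_apply continuous_const

theorem deriv_supp (h : HasCompactSupport φ) (v : ℝ × ℝ) :
    HasCompactSupport (fun p => fderiv ℝ φ p v) := h.fderiv_apply ℝ v

theorem int1 (h : ContDiff ℝ 1 φ) (hs : HasCompactSupport φ) (v : ℝ × ℝ) :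
    Integrable (fun p => (fderiv ℝ φ p v).1) := by
  apply Continuous.integrable_of_hasCompactSupport (continuous_fst.comp (deriv_cont h v))
  exact (deriv_supp hs v).comp_left (g := Prod.fst) rfl

theorem int2 (h : ContDiff ℝ 1 φ) (hs : HasCompactSupport φ) (v : ℝ × ℝ) :
    Integrable (fun p => (fderiv ℝ φ p v).2) := by
  apply Continuous.integrable_of_hasCompactSupport (continuous_snd.comp (deriv_cont h v))
  exact (deriv_supp hs v).comp_left (g := Prod.snd) rfl

theorem part1 (h : ContDiff ℝ 1 φ) (hs : HasCompactSupport φ) (hb : ∀ p, |(φ p).1| ≤ 1)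
    {c : ℝ} (hc0 : 0 ≤ c) (hc1 : c ≤ 1) :
    ∫ p in E0 c, (fderiv ℝ φ p (1, 0)).1 ≤ 4 * c := by
  rw [← integral_indicator (E0_isOpen c).measurableSet]
  have hint : Integrable ((E0 c).indicator (fun p => (fderiv ℝ φ p (1, 0)).1))
      ((volume : Measure ℝ).prod (volume : Measure ℝ)) :=
    (int1 h hs (1, 0)).indicator (E0_isOpen c).measurableSet
  rw [Measure.volume_eq_prod, integral_prod_symm _ hint]
  have hI : Integrable ((Set.Ioo (-c) c).indicator (fun _ : ℝ => (2 : ℝ))) := by
    apply IntegrableOn.integrable_indicator _ measurableSet_Ioo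
    exact integrableOn_const (by simp)
  have key : ∀ y : ℝ, (∫ x, (E0 c).indicator (fun p => (fderiv ℝ φ p (1, 0)).1) (x, y)) ≤
      (Set.Ioo (-c) c).indicator (fun _ : ℝ => (2 : ℝ)) y := by
    intro y
    by_cases hy : |y| < c
    · rw [Set.indicator_of_mem (show y ∈ Set.Ioo (-c) c from abs_lt.1 hy)]
      have e : (fun x => (E0 c).indicator (fun p => (fderiv ℝ φ p (1, 0)).1) (x, y)) =
          (Set.Ioo (-min c (Real.sqrt (1 - y * y))) (min c (Real.sqrt (1 - y * y)))).indicator
            (fun x => (fderiv ℝ φ (x, y) (1, 0)).1) := by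
        funext x
        by_cases hx : x ∈ Set.Ioo (-min c (Real.sqrt (1 - y * y))) (min c (Real.sqrt (1 - y * y)))
        · rw [Set.indicator_of_mem hx]
          have := (slice_set hc1 hy x).2 hx
          rw [Set.indicator_of_mem (show (x, y) ∈ E0 c from ⟨this.1, this.2, hy⟩)]
        · rw [Set.indicator_of_notMem hx]
          rw [Set.indicator_of_notMem]
          intro hcon
          exact hx ((slice_set hc1 hy x).1 ⟨hcon.1, hcon.2.1⟩)
      rw [e, integral_indicator measurableSet_Ioo]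
      refine slice_le (g := fun x => (φ (x, y)).1) (fun x => ?_) ?_ (fun x => hb (x, y))
        (le_min hc0 (Real.sqrt_nonneg _))
      · have h1 : HasFDerivAt φ (fderiv ℝ φ (x, y)) (x, y) :=
          (h.differentiable one_ne_zero).differentiableAt.hasFDerivAt
        have h2 : HasDerivAt (fun x : ℝ => (x, y)) ((1 : ℝ), (0 : ℝ)) x :=
          (hasDerivAt_id x).prodMk (hasDerivAt_const x y)
        have h3 := h1.comp_hasDerivAt x h2
        exact (hasFDerivAt_fst (𝕜 := ℝ) (E := ℝ) (F := ℝ)).comp_hasDerivAt x h3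
      · exact (continuous_fst.comp (deriv_cont h (1, 0))).comp (by fun_prop)
    · rw [Set.indicator_of_notMem (show y ∉ Set.Ioo (-c) c from fun hcon => hy (abs_lt.2 hcon))]
      apply le_of_eq
      rw [show (fun x => (E0 c).indicator (fun p => (fderiv ℝ φ p (1, 0)).1) (x, y)) =
        fun _ => (0 : ℝ) from ?_]
      · simp
      · funext x
        exact Set.indicator_of_notMem (fun hcon => hy hcon.2.2) _
  refine (integral_mono hint.integral_prod_right hI key).trans (le_of_eq ?_)
  rw [integral_indicator measurableSet_Ioo, setIntegral_const]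
  simp only [Measure.real, Real.volume_Ioo, smul_eq_mul]
  rw [ENNReal.toReal_ofReal (by linarith)]
  ring

theorem part2 (h : ContDiff ℝ 1 φ) (hs : HasCompactSupport φ) (hb : ∀ p, |(φ p).2| ≤ 1)
    {c : ℝ} (hc0 : 0 ≤ c) (hc1 : c ≤ 1) :
    ∫ p in E0 c, (fderiv ℝ φ p (0, 1)).2 ≤ 4 * c := by
  rw [← integral_indicator (E0_isOpen c).measurableSet]
  have hint : Integrable ((E0 c).indicator (fun p => (fderiv ℝ φ p (0, 1)).2))
      ((volume : Measure ℝ).prod (volume : Measure ℝ)) :=
    (int2 h hs (0, 1)).indicator (E0_isOpen c).measurableSet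
  rw [Measure.volume_eq_prod, integral_prod _ hint]
  have hI : Integrable ((Set.Ioo (-c) c).indicator (fun _ : ℝ => (2 : ℝ))) := by
    apply IntegrableOn.integrable_indicator _ measurableSet_Ioo
    exact integrableOn_const (by simp)
  have key : ∀ y : ℝ, (∫ x, (E0 c).indicator (fun p => (fderiv ℝ φ p (0, 1)).2) (y, x)) ≤
      (Set.Ioo (-c) c).indicator (fun _ : ℝ => (2 : ℝ)) y := by
    intro y
    by_cases hy : |y| < c
    · rw [Set.indicator_of_mem (show y ∈ Set.Ioo (-c) c from abs_lt.1 hy)]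
      have e : (fun x => (E0 c).indicator (fun p => (fderiv ℝ φ p (0, 1)).2) (y, x)) =
          (Set.Ioo (-min c (Real.sqrt (1 - y * y))) (min c (Real.sqrt (1 - y * y)))).indicator
            (fun x => (fderiv ℝ φ (y, x) (0, 1)).2) := by
        funext x
        by_cases hx : x ∈ Set.Ioo (-min c (Real.sqrt (1 - y * y))) (min c (Real.sqrt (1 - y * y)))
        · rw [Set.indicator_of_mem hx]
          have := (slice_set hc1 hy x).2 hx
          rw [Set.indicator_of_mem (show (y, x) ∈ E0 c from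
            ⟨by show y * y + x * x < 1; linarith [this.1], hy, this.2⟩)]
        · rw [Set.indicator_of_notMem hx]
          rw [Set.indicator_of_notMem]
          intro hcon
          have hcon1 : y * y + x * x < 1 := hcon.1
          exact hx ((slice_set hc1 hy x).1 ⟨by linarith, hcon.2.2⟩)
      rw [e, integral_indicator measurableSet_Ioo]
      refine slice_le (g := fun x => (φ (y, x)).2) (fun x => ?_) ?_ (fun x => hb (y, x))
        (le_min hc0 (Real.sqrt_nonneg _))
      · have h1 : HasFDerivAt φ (fderiv ℝ φ (y, x)) (y, x) :=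
          (h.differentiable one_ne_zero).differentiableAt.hasFDerivAt
        have h2 : HasDerivAt (fun x : ℝ => (y, x)) ((0 : ℝ), (1 : ℝ)) x :=
          (hasDerivAt_const x y).prodMk (hasDerivAt_id x)
        have h3 := h1.comp_hasDerivAt x h2
        exact (hasFDerivAt_snd (𝕜 := ℝ) (E := ℝ) (F := ℝ)).comp_hasDerivAt x h3
      · exact (continuous_snd.comp (deriv_cont h (0, 1))).comp (by fun_prop)
    · rw [Set.indicator_of_notMem (show y ∉ Set.Ioo (-c) c from fun hcon => hy (abs_lt.2 hcon))]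
      apply le_of_eq
      rw [show (fun x => (E0 c).indicator (fun p => (fderiv ℝ φ p (0, 1)).2) (y, x)) =
        fun _ => (0 : ℝ) from ?_]
      · simp
      · funext x
        exact Set.indicator_of_notMem (fun hcon => hy hcon.2.1) _
  refine (integral_mono hint.integral_prod_left hI key).trans (le_of_eq ?_)
  rw [integral_indicator measurableSet_Ioo, setIntegral_const]
  simp only [Measure.real, Real.volume_Ioo, smul_eq_mul]
  rw [ENNReal.toReal_ofReal (by linarith)]
  ring

/-- the upper bound for the perimeter of the truncated disk -/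
theorem perim_le {K : Set (ℝ × ℝ)} (hK : ∀ p ∈ K, |p.1| ≤ 1 ∧ |p.2| ≤ 1) {c : ℝ} (hc0 : 0 ≤ c)
    (hc1 : c ≤ 1) : perim K (E0 c) ≤ ENNReal.ofReal (8 * c) := by
  have hcl : ∀ p ∈ closure K, |p.1| ≤ 1 ∧ |p.2| ≤ 1 := by
    have h1 : IsClosed {p : ℝ × ℝ | |p.1| ≤ 1 ∧ |p.2| ≤ 1} := by
      have h2 : IsClosed {p : ℝ × ℝ | |p.1| ≤ 1} := isClosed_le (by fun_prop) continuous_const
      have h3 : IsClosed {p : ℝ × ℝ | |p.2| ≤ 1} := isClosed_le (by fun_prop) continuous_const
      exact h2.inter h3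
    exact closure_minimal (fun p hp => hK p hp) h1
  refine iSup₂_le fun φ hφ => ENNReal.ofReal_le_ofReal ?_
  have h1 : ∫ p in E0 c, divg φ p = (∫ p in E0 c, (fderiv ℝ φ p (1, 0)).1) +
      ∫ p in E0 c, (fderiv ℝ φ p (0, 1)).2 :=
    integral_add (int1 hφ.smooth hφ.supp (1, 0)).integrableOn
      (int2 hφ.smooth hφ.supp (0, 1)).integrableOn
  rw [h1]
  have h2 := part1 hφ.smooth hφ.supp (fun p => (hcl _ (hφ.mem p)).1) hc0 hc1
  have h3 := part2 hφ.smooth hφ.supp (fun p => (hcl _ (hφ.mem p)).2) hc0 hc1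
  linarith

/-- the upper bound for the Cheeger constant -/
theorem cheeger_le {K : Set (ℝ × ℝ)} (hK : ∀ p ∈ K, |p.1| ≤ 1 ∧ |p.2| ≤ 1) :
    cheeger K disk ≤ ENNReal.ofReal ((184 / 25) / (Real.pi - 64 / 375)) := by
  have hpi : 0 < Real.pi - 64 / 375 := by linarith [Real.pi_gt_three]
  have hv : 0 < volume (E0 (23 / 25)) := by
    refine lt_of_lt_of_le ?_ E0_volume
    rw [ENNReal.ofReal_pos]; exact hpi
  refine (iInf₂_le (E0 (23 / 25)) ⟨fun p hp => hp.1, (E0_isOpen _).measurableSet, hv⟩).trans ?_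
  rw [ENNReal.ofReal_div_of_pos hpi]
  refine ENNReal.div_le_div ((perim_le hK (by norm_num) (by norm_num)).trans ?_) E0_volume
  apply ENNReal.ofReal_le_ofReal
  norm_num

/-- the lower bound for the Cheeger constant -/
theorem cheeger_ge {K : Set (ℝ × ℝ)} (hK : disk ⊆ K) : 2 ≤ cheeger K disk := by
  refine le_iInf₂ fun E hE => ?_
  have hfin : volume E ≠ ⊤ := by
    refine ne_top_of_le_ne_top ?_ (measure_mono hE.1)
    rw [volume_disk]; exact ENNReal.ofReal_ne_top
  rw [ENNReal.le_div_iff_mul_le (Or.inl hE.2.2.ne') (Or.inl hfin)]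
  exact perim_ge hK hE.1 hE.2.1 hfin

end Pool.Agent.X41.Chee
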